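import Pool.Agent.Helper49.LC.St

/-!
Project LC (MP_58b586_gt), module PRD: products of diffeomorphisms with disjoint supports.
-/

set_option autoImplicit false

open scoped ContDiff Topology
open Filter

namespace Pool.Agent.Helper5.LC

open Pool.Agent.Helper14.LK Pool.Agent.Helper49.LC

/-- the inverse of a symplectic diffeomorphism is one -/
private theorem sd_symm {n : ℕ} {f g : WW n → WW n} (h : SD f g) : SD g f := by
  refine ⟨h.smi, h.sm, h.right, h.left, ?_⟩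
  intro w a b
  have hf : DifferentiableAt ℝ f (g w) := (h.sm.differentiable (by simp)) _
  have hg : DifferentiableAt ℝ g w := (h.smi.differentiable (by simp)) _
  have h1 : f ∘ g = id := by
    funext x
    exact h.right x
  have h2 := fderiv_comp w hf hg
  rw [h1, fderiv_id] at h2
  have h3 : ∀ c, fderiv ℝ f (g w) (fderiv ℝ g w c) = c := by
    intro c
    have h4 := congrArg (fun L : WW n →L[ℝ] WW n => L c) h2
    exact h4.symm
  have h5 := h.sy (g w) (fderiv ℝ g w a) (fderiv ℝ g w b)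
  rw [h3 a, h3 b] at h5
  exact h5.symm

/-- the inverse is the identity off the support -/
private theorem inv_fix {n : ℕ} {f g : WW n → WW n} (h : SD f g) {V : Set (WW n)}
    (hV : ∀ w ∉ V, f w = w) : ∀ w ∉ V, g w = w := by
  intro w hw
  have h1 := h.left w
  rwa [hV w hw] at h1

/-- the support is mapped into itself -/
private theorem maps {n : ℕ} {f g : WW n → WW n} (h : SD f g) {V : Set (WW n)}
    (hV : ∀ w ∉ V, f w = w) : ∀ w ∈ V, f w ∈ V := by
  intro w hw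
  by_contra hn
  have h1 := hV _ hn
  have h2 := congrArg g h1
  rw [h.left, h.left] at h2
  rw [h2] at hn
  exact hn hw

/-- gluing -/
private theorem glue {n : ℕ} (f : ℕ → WW n → WW n) (V : ℕ → Set (WW n))
    (hd : ∀ i j, i ≠ j → Disjoint (V i) (V j)) :
    ∃ F : WW n → WW n, (∀ j, ∀ w ∈ V j, F w = f j w) ∧ ∀ w, (∀ j, w ∉ V j) → F w = w := by
  classical
  refine ⟨fun w => if h : ∃ j, w ∈ V j then f h.choose w else w, ?_, ?_⟩
  · intro j w hw
    have h : ∃ j, w ∈ V j := ⟨j, hw⟩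
    have h1 : h.choose = j := by
      by_contra hne
      exact (Set.disjoint_left.1 (hd _ _ hne)) h.choose_spec hw
    show (if h : ∃ j, w ∈ V j then f h.choose w else w) = f j w
    rw [dif_pos h, h1]
  · intro w hw
    show (if h : ∃ j, w ∈ V j then f h.choose w else w) = w
    rw [dif_neg]
    rintro ⟨j, hj⟩
    exact hw j hj

/-- local description of the glued map -/
private theorem local_eq {n : ℕ} {f : ℕ → WW n → WW n} {V : ℕ → Set (WW n)}
    (hc : ∀ j, IsClosed (V j)) (hd : ∀ i j, i ≠ j → Disjoint (V i) (V j))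
    (hf : ∀ j, ∀ w ∉ V j, f j w = w) {F : WW n → WW n} (h1 : ∀ j, ∀ w ∈ V j, F w = f j w)
    (h2 : ∀ w, (∀ j, w ∉ V j) → F w = w) (w : WW n) {O : Set (WW n)} (hO : IsOpen O)
    (hw : w ∈ O) {N : ℕ} (hN : ∀ j, N ≤ j → Disjoint O (V j)) :
    (∃ j, F =ᶠ[𝓝 w] f j) ∨ F =ᶠ[𝓝 w] id := by
  have hev : ∀ᶠ x in 𝓝 w, ∀ i ∈ Finset.range N, w ∉ V i → x ∉ V i := by
    rw [eventually_all_finset]
    intro i _
    by_cases hi : w ∈ V i
    · exact Eventually.of_forall fun x h => absurd hi h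
    · have h3 : (V i)ᶜ ∈ 𝓝 w := (hc i).isOpen_compl.mem_nhds hi
      filter_upwards [h3] with x hx _
      exact hx
  have hev2 : ∀ᶠ x in 𝓝 w, ∀ i, w ∉ V i → x ∉ V i := by
    filter_upwards [hev, hO.mem_nhds hw] with x hx hxO i hi
    by_cases hiN : i < N
    · exact hx i (Finset.mem_range.2 hiN) hi
    · exact fun h => (Set.disjoint_left.1 (hN i (not_lt.1 hiN))) hxO h
  by_cases h : ∃ j, w ∈ V j
  · obtain ⟨j, hj⟩ := h
    left
    refine ⟨j, ?_⟩
    filter_upwards [hev2] with x hx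
    by_cases hxj : x ∈ V j
    · exact h1 j x hxj
    · rw [hf j x hxj]
      apply h2
      intro i
      by_cases hij : i = j
      · rw [hij]
        exact hxj
      · exact hx i fun h => (Set.disjoint_left.1 (hd i j hij)) h hj
  · right
    filter_upwards [hev2] with x hx
    exact h2 x fun i => hx i fun hi => h ⟨i, hi⟩

/-- smoothness and symplecticity of the glued map -/
private theorem smooth {n : ℕ} {f : ℕ → WW n → WW n} {V : ℕ → Set (WW n)}
    (hs : ∀ j, ContDiff ℝ ∞ (f j))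
    (hsy : ∀ j w a b, om (fderiv ℝ (f j) w a) (fderiv ℝ (f j) w b) = om a b)
    (hc : ∀ j, IsClosed (V j)) (hd : ∀ i j, i ≠ j → Disjoint (V i) (V j))
    (hf : ∀ j, ∀ w ∉ V j, f j w = w) {F : WW n → WW n} (h1 : ∀ j, ∀ w ∈ V j, F w = f j w)
    (h2 : ∀ w, (∀ j, w ∉ V j) → F w = w) (w : WW n) {O : Set (WW n)} (hO : IsOpen O)
    (hw : w ∈ O) {N : ℕ} (hN : ∀ j, N ≤ j → Disjoint O (V j)) :
    ContDiffAt ℝ ∞ F w ∧ ∀ a b, om (fderiv ℝ F w a) (fderiv ℝ F w b) = om a b := by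
  rcases local_eq hc hd hf h1 h2 w hO hw hN with ⟨j, hj⟩ | h
  · refine ⟨(hs j).contDiffAt.congr_of_eventuallyEq hj, fun a b => ?_⟩
    rw [hj.fderiv_eq]
    exact hsy j w a b
  · refine ⟨contDiffAt_id.congr_of_eventuallyEq h, fun a b => ?_⟩
    rw [h.fderiv_eq, fderiv_id]
    rfl

theorem hPRD : StPRD := by
  intro n f g V hsd hc hd hf
  have hg : ∀ j, ∀ w ∉ V j, g j w = w := fun j => inv_fix (hsd j) (hf j)
  have hfV : ∀ j, ∀ w ∈ V j, f j w ∈ V j := fun j => maps (hsd j) (hf j)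
  have hgV : ∀ j, ∀ w ∈ V j, g j w ∈ V j := fun j => maps (sd_symm (hsd j)) (hg j)
  obtain ⟨F, hF1, hF2⟩ := glue f V hd
  obtain ⟨G, hG1, hG2⟩ := glue g V hd
  refine ⟨F, G, ?_, ?_, ?_, ?_, ?_⟩
  · intro w
    by_cases h : ∃ j, w ∈ V j
    · obtain ⟨j, hj⟩ := h
      rw [hF1 j w hj, hG1 j _ (hfV j w hj), (hsd j).left]
    · have h' : ∀ j, w ∉ V j := fun j hj => h ⟨j, hj⟩
      rw [hF2 w h', hG2 w h']
  · intro w
    by_cases h : ∃ j, w ∈ V j
    · obtain ⟨j, hj⟩ := h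
      rw [hG1 j w hj, hF1 j _ (hgV j w hj), (hsd j).right]
    · have h' : ∀ j, w ∉ V j := fun j hj => h ⟨j, hj⟩
      rw [hG2 w h', hF2 w h']
  · intro j w hw
    rw [hF1 j w hw, hG1 j w hw]
    exact ⟨hfV j w hw, rfl, hgV j w hw, rfl⟩
  · intro w hw
    exact ⟨hF2 w hw, hG2 w hw⟩
  · rintro w O hO hw ⟨N, hN⟩
    have h1 := smooth (fun j => (hsd j).sm) (fun j => (hsd j).sy) hc hd hf hF1 hF2 w hO hw hN
    have h2 := smooth (fun j => (hsd j).smi) (fun j => (sd_symm (hsd j)).sy) hc hd hg hG1 hG2 w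
      hO hw hN
    exact ⟨h1.1, h2.1, h1.2, h2.2⟩

end Pool.Agent.Helper5.LC
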